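import Pool.Agent.Helper90.G2.Koebe

/-!
# G4 core, part 3: the logarithmic derivative of the difference quotient of a univalent function
-/

set_option autoImplicit false

namespace Pool.Agent.Helper66.G4

open Set Filter Topology Metric
open scoped Real

/-- Koebe's quarter theorem at `z` -/
theorem koebe_at {F : ℂ → ℂ} {z w0 : ℂ} {r : ℝ} (hr : 0 < r) (hd : DifferentiableOn ℂ F (ball z r))
    (hi : InjOn F (ball z r)) (hne : ∀ v ∈ ball z r, F v ≠ w0) :
    ‖deriv F z‖ * r ≤ 4 * ‖F z - w0‖ := by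
  have hm : MapsTo (fun w : ℂ => z + w) (ball 0 r) (ball z r) := by
    intro w hw
    rw [mem_ball_zero_iff] at hw
    rw [mem_ball, dist_eq_norm, add_sub_cancel_left]
    exact hw
  have h := Pool.Agent.Helper84.EK.koebe_r (g := fun w => F (z + w) - w0) hr
    ((hd.comp (by fun_prop) hm).sub_const w0)
    (by
      intro w hw w' hw' h
      exact add_left_cancel (hi (hm hw) (hm hw') (sub_left_injective h)))
    (fun w hw => sub_ne_zero.2 (hne _ (hm hw)))
  have h2 : deriv (fun w => F (z + w) - w0) 0 = deriv F z := by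
    rw [deriv_sub_const, deriv_comp_const_add, add_zero]
  rw [h2, add_zero] at h
  exact h

/-- the difference quotient has no zeros -/
theorem dslope_ne {F : ℂ → ℂ} {u : ℂ} {R : ℝ} (hd : DifferentiableOn ℂ F (ball u R))
    (hi : InjOn F (ball u R)) {z : ℂ} (hz : z ∈ ball u R) : dslope F u z ≠ 0 := by
  have hR : 0 < R := pos_of_mem_ball hz
  by_cases h : z = u
  · rw [h, dslope_same]
    exact Pool.Agent.Helper24.Br.deriv_ne_of_inj isOpen_ball hd hi (mem_ball_self hR)
  · rw [dslope_of_ne _ h, slope_def_field]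
    apply div_ne_zero
    · rw [sub_ne_zero]
      intro h2
      exact h (hi hz (mem_ball_self hR) h2)
    · exact sub_ne_zero.2 h

theorem dslope_diff {F : ℂ → ℂ} {u : ℂ} {R : ℝ} (hR : 0 < R) (hd : DifferentiableOn ℂ F (ball u R)) :
    DifferentiableOn ℂ (dslope F u) (ball u R) :=
  (Complex.differentiableOn_dslope (ball_mem_nhds u hR)).2 hd

/-- the logarithmic derivative of the difference quotient is at most `18 / R` on the disc of radius
`3 R / 4` -/
theorem quot_log {F : ℂ → ℂ} {u : ℂ} {R : ℝ} (hR : 0 < R) (hd : DifferentiableOn ℂ F (ball u R))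
    (hi : InjOn F (ball u R)) {z : ℂ} (hz : ‖z - u‖ ≤ 3 / 4 * R) :
    ‖deriv (dslope F u) z / dslope F u z‖ ≤ 18 / R := by
  have hsub : closedBall u (3 / 4 * R) ⊆ ball u R := closedBall_subset_ball (by linarith)
  have hq := dslope_diff hR hd
  have hq' := hq.deriv isOpen_ball
  have hquot : DifferentiableOn ℂ (fun z => deriv (dslope F u) z / dslope F u z) (ball u R) :=
    hq'.div hq (fun z hz => dslope_ne hd hi hz)
  have hfr : ∀ z ∈ frontier (ball u (3 / 4 * R)),
      ‖deriv (dslope F u) z / dslope F u z‖ ≤ 18 / R := by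
    intro z hz
    rw [frontier_ball u (by positivity : 3 / 4 * R ≠ 0), mem_sphere, dist_eq_norm] at hz
    have hzu : z ≠ u := by
      intro h
      rw [h, sub_self, norm_zero] at hz
      linarith
    have hzR : z ∈ ball u R := by
      rw [mem_ball, dist_eq_norm, hz]
      linarith
    have hd1 : HasDerivAt F (deriv F z) z :=
      (hd.differentiableAt (isOpen_ball.mem_nhds hzR)).hasDerivAt
    have hzu' : z - u ≠ 0 := sub_ne_zero.2 hzu
    have hFne : F z - F u ≠ 0 := by
      rw [sub_ne_zero]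
      intro h
      exact hzu (hi hzR (mem_ball_self hR) h)
    have hd2 : HasDerivAt (dslope F u)
        ((deriv F z * (z - u) - (F z - F u) * 1) / (z - u) ^ 2) z := by
      have h1 : HasDerivAt (fun w => (F w - F u) / (w - u))
          ((deriv F z * (z - u) - (F z - F u) * 1) / (z - u) ^ 2) z :=
        (hd1.sub_const (F u)).div ((hasDerivAt_id z).sub_const u) hzu'
      refine h1.congr_of_eventuallyEq ?_
      filter_upwards [isOpen_ne.mem_nhds hzu] with w hw
      rw [dslope_of_ne _ hw, slope_def_field]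
    have e1 : deriv (dslope F u) z / dslope F u z =
        deriv F z / (F z - F u) - 1 / (z - u) := by
      rw [hd2.deriv, dslope_of_ne _ hzu, slope_def_field]
      field_simp
    rw [e1]
    have hsub2 : ball z (R / 4) ⊆ ball u R := by
      intro w hw
      rw [mem_ball, dist_eq_norm] at hw ⊢
      calc ‖w - u‖ = ‖(w - z) + (z - u)‖ := by ring_nf
        _ ≤ ‖w - z‖ + ‖z - u‖ := norm_add_le _ _
        _ < R := by rw [hz]; linarith
    have h2 := koebe_at (F := F) (z := z) (w0 := F u) (r := R / 4) (by positivity)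
      (hd.mono hsub2) (hi.mono hsub2) (by
        intro v hv h
        have h3 := hi (hsub2 hv) (mem_ball_self hR) h
        rw [h3, mem_ball, dist_eq_norm, norm_sub_rev, hz] at hv
        linarith)
    have h3 : ‖deriv F z / (F z - F u)‖ ≤ 16 / R := by
      rw [norm_div, div_le_div_iff₀ (norm_pos_iff.2 hFne) hR]
      linarith
    have h4 : ‖1 / (z - u)‖ ≤ 2 / R := by
      rw [norm_div, hz, norm_one, div_le_div_iff₀ (by positivity) hR]
      linarith
    calc ‖deriv F z / (F z - F u) - 1 / (z - u)‖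
        ≤ ‖deriv F z / (F z - F u)‖ + ‖1 / (z - u)‖ := norm_sub_le _ _
      _ ≤ 16 / R + 2 / R := add_le_add h3 h4
      _ = 18 / R := by ring
  apply Complex.norm_le_of_forall_mem_frontier_norm_le (U := ball u (3 / 4 * R))
    (f := fun z => deriv (dslope F u) z / dslope F u z) isBounded_ball _ hfr
  · rw [closure_ball u (by positivity : 3 / 4 * R ≠ 0), mem_closedBall, dist_eq_norm]
    exact hz
  · apply DifferentiableOn.diffContOnCl
    rw [closure_ball u (by positivity : 3 / 4 * R ≠ 0)]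
    exact hquot.mono hsub

/-- `z F' / (F z - F u)` is near `1` -/
theorem quot_near' {F : ℂ → ℂ} {u : ℂ} {R : ℝ} (hR : 0 < R) (hd : DifferentiableOn ℂ F (ball u R))
    (hi : InjOn F (ball u R)) {z : ℂ} (hz : ‖z - u‖ ≤ 3 / 4 * R) (hzu : z ≠ u) :
    ‖deriv F z * (z - u) / (F z - F u) - 1‖ ≤ ‖z - u‖ * (18 / R) := by
  have h := quot_log hR hd hi (z := z) hz
  have hzR : z ∈ ball u R := by
    rw [mem_ball, dist_eq_norm]
    linarith
  have hd1 : HasDerivAt F (deriv F z) z :=
    (hd.differentiableAt (isOpen_ball.mem_nhds hzR)).hasDerivAt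
  have hzu' : z - u ≠ 0 := sub_ne_zero.2 hzu
  have hFne : F z - F u ≠ 0 := by
    rw [sub_ne_zero]
    intro h
    exact hzu (hi hzR (mem_ball_self hR) h)
  have hd2 : HasDerivAt (dslope F u)
      ((deriv F z * (z - u) - (F z - F u) * 1) / (z - u) ^ 2) z := by
    have h1 : HasDerivAt (fun w => (F w - F u) / (w - u))
        ((deriv F z * (z - u) - (F z - F u) * 1) / (z - u) ^ 2) z :=
      (hd1.sub_const (F u)).div ((hasDerivAt_id z).sub_const u) hzu'
    refine h1.congr_of_eventuallyEq ?_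
    filter_upwards [isOpen_ne.mem_nhds hzu] with w hw
    rw [dslope_of_ne _ hw, slope_def_field]
  have e1 : deriv F z * (z - u) / (F z - F u) - 1 =
      (z - u) * (deriv (dslope F u) z / dslope F u z) := by
    rw [hd2.deriv, dslope_of_ne _ hzu, slope_def_field]
    field_simp
  rw [e1, norm_mul]
  exact mul_le_mul_of_nonneg_left h (norm_nonneg _)

theorem quot_near {F : ℂ → ℂ} {u : ℂ} {R : ℝ} (hR : 0 < R) (hd : DifferentiableOn ℂ F (ball u R))
    (hi : InjOn F (ball u R)) {z : ℂ} (hz : ‖z - u‖ ≤ R / 36) (hzu : z ≠ u) :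
    ‖deriv F z * (z - u) / (F z - F u) - 1‖ ≤ 1 / 2 := by
  refine (quot_near' hR hd hi (by linarith) hzu).trans ?_
  calc ‖z - u‖ * (18 / R) ≤ R / 36 * (18 / R) :=
        mul_le_mul_of_nonneg_right hz (by positivity)
    _ = 1 / 2 := by
        field_simp
        norm_num

/-- comparison of two derivatives and of the increment of a univalent function -/
theorem quot_two {F : ℂ → ℂ} {p p' : ℂ} {R : ℝ} (hR : 0 < R) (hd : DifferentiableOn ℂ F (ball p R))
    (hi : InjOn F (ball p R)) (h : ‖p' - p‖ ≤ R / 1000) :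
    ‖deriv F p'‖ ≤ 2 * ‖deriv F p‖ ∧ ‖deriv F p‖ ≤ 2 * ‖deriv F p'‖ ∧
      ‖F p' - F p‖ ≤ 2 * ‖deriv F p‖ * ‖p' - p‖ := by
  by_cases hpp : p' = p
  · rw [hpp, sub_self, sub_self, norm_zero, mul_zero]
    have := norm_nonneg (deriv F p)
    exact ⟨by linarith, by linarith, le_rfl⟩
  have hsub : ball p' (R / 2) ⊆ ball p R := by
    intro w hw
    rw [mem_ball, dist_eq_norm] at hw ⊢
    calc ‖w - p‖ = ‖(w - p') + (p' - p)‖ := by ring_nf
      _ ≤ ‖w - p'‖ + ‖p' - p‖ := norm_add_le _ _
      _ < R := by linarith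
  have hx : 0 < ‖p' - p‖ := norm_pos_iff.2 (sub_ne_zero.2 hpp)
  have h1 := quot_near' hR hd hi (z := p') (by linarith) hpp
  have h2 := quot_near' (half_pos hR) (hd.mono hsub) (hi.mono hsub) (z := p)
    (by rw [norm_sub_rev]; linarith) (Ne.symm hpp)
  have hne : F p' - F p ≠ 0 := by
    rw [sub_ne_zero]
    intro he
    exact hpp (hi (by rw [mem_ball, dist_eq_norm]; linarith) (mem_ball_self hR) he)
  have hFx : 0 < ‖F p' - F p‖ := norm_pos_iff.2 hne
  have b1 : ‖deriv F p' * (p' - p) / (F p' - F p) - 1‖ ≤ 1 / 20 := by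
    refine h1.trans ?_
    calc ‖p' - p‖ * (18 / R) ≤ R / 1000 * (18 / R) :=
          mul_le_mul_of_nonneg_right h (by positivity)
      _ ≤ 1 / 20 := by
          rw [show R / 1000 * (18 / R) = 18 / 1000 by field_simp]
          norm_num
  have b2 : ‖deriv F p * (p' - p) / (F p' - F p) - 1‖ ≤ 1 / 20 := by
    have e : deriv F p * (p' - p) / (F p' - F p) = deriv F p * (p - p') / (F p - F p') := by
      rw [← neg_sub p p', ← neg_sub (F p) (F p'), mul_neg, neg_div_neg_eq]
    rw [e]
    refine h2.trans ?_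
    rw [norm_sub_rev]
    calc ‖p' - p‖ * (18 / (R / 2)) ≤ R / 1000 * (18 / (R / 2)) :=
          mul_le_mul_of_nonneg_right h (by positivity)
      _ ≤ 1 / 20 := by
          rw [show R / 1000 * (18 / (R / 2)) = 36 / 1000 by field_simp; norm_num]
          norm_num
  have key : ∀ w : ℂ, ‖w - 1‖ ≤ 1 / 20 → 19 / 20 ≤ ‖w‖ ∧ ‖w‖ ≤ 21 / 20 := by
    intro w hw
    constructor
    · have h3 := norm_sub_norm_le (1:ℂ) w
      rw [norm_one, norm_sub_rev] at h3
      linarith
    · have h3 := norm_sub_norm_le w (1:ℂ)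
      rw [norm_one] at h3
      linarith
  have c1 := key _ b1
  have c2 := key _ b2
  rw [norm_div, norm_mul, div_le_iff₀ hFx, le_div_iff₀ hFx] at c1 c2
  have n1 := norm_nonneg (deriv F p')
  have n2 := norm_nonneg (deriv F p)
  refine ⟨?_, ?_, ?_⟩
  · by_contra hc
    push Not at hc
    have h5 : 2 * ‖deriv F p‖ * ‖p' - p‖ < ‖deriv F p'‖ * ‖p' - p‖ := mul_lt_mul_of_pos_right hc hx
    nlinarith [c1.2, c2.1]
  · by_contra hc
    push Not at hc
    have h5 : 2 * ‖deriv F p'‖ * ‖p' - p‖ < ‖deriv F p‖ * ‖p' - p‖ := mul_lt_mul_of_pos_right hc hx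
    nlinarith [c2.2, c1.1]
  · linarith [c2.1, mul_nonneg n2 hx.le]

end Pool.Agent.Helper66.G4
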