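import Pool.Agent.Helper66.G4.Top

/-!
# G4 core, part 2: a curve which still has to unwind comes back
-/

set_option autoImplicit false

namespace Pool.Agent.Helper66.G4

open Set Filter Topology
open scoped Real

/-- a clean crossing of a band -/
theorem band_cross {θ : ℝ → ℝ} {s0 sK A B : ℝ} (hAB : A < B) (hs : s0 ≤ sK)
    (hθ : ContinuousOn θ (Icc s0 sK)) (h0 : B ≤ θ s0) (h1 : θ sK ≤ A) :
    ∃ b c : ℝ, s0 ≤ b ∧ b ≤ c ∧ c ≤ sK ∧ θ b = B ∧ θ c = A ∧ ∀ s ∈ Icc b c, A ≤ θ s ∧ θ s ≤ B := by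
  -- the first time at the level A
  have hcl : IsCompact (Icc s0 sK ∩ θ ⁻¹' {A}) := by
    have h := hθ.preimage_isClosed_of_isClosed isClosed_Icc (isClosed_singleton (x := A))
    exact isCompact_Icc.of_isClosed_subset h inter_subset_left
  have hne : (Icc s0 sK ∩ θ ⁻¹' {A}).Nonempty := by
    have h2 := intermediate_value_Icc' hs hθ
    obtain ⟨s, hs1, hs2⟩ := h2 ⟨h1, by linarith⟩
    exact ⟨s, hs1, hs2⟩
  obtain ⟨c, ⟨hc1, hc2⟩, hc3⟩ := hcl.exists_isLeast hne
  have hcA : θ c = A := hc2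
  have hA : ∀ s ∈ Icc s0 c, A ≤ θ s := by
    intro s hs2
    by_contra h
    push Not at h
    have h3 := intermediate_value_Icc' hs2.1
      (hθ.mono (Icc_subset_Icc le_rfl (le_trans hs2.2 hc1.2)))
    obtain ⟨s', hs3, hs4⟩ := h3 ⟨h.le, by linarith⟩
    have h4 : c ≤ s' := hc3 ⟨⟨hs3.1, le_trans hs3.2 (le_trans hs2.2 hc1.2)⟩, hs4⟩
    have h5 : s' = s := le_antisymm hs3.2 (le_trans hs2.2 h4)
    rw [h5] at hs4
    linarith
  -- the last time before c at the level B
  have hθc : ContinuousOn θ (Icc s0 c) := hθ.mono (Icc_subset_Icc le_rfl hc1.2)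
  have hcl2 : IsCompact (Icc s0 c ∩ θ ⁻¹' {B}) := by
    have h := hθc.preimage_isClosed_of_isClosed isClosed_Icc (isClosed_singleton (x := B))
    exact isCompact_Icc.of_isClosed_subset h inter_subset_left
  have hne2 : (Icc s0 c ∩ θ ⁻¹' {B}).Nonempty := by
    have h2 := intermediate_value_Icc' hc1.1 hθc
    obtain ⟨s, hs1, hs2⟩ := h2 ⟨by linarith, h0⟩
    exact ⟨s, hs1, hs2⟩
  obtain ⟨b, ⟨hb1, hb2⟩, hb3⟩ := hcl2.exists_isGreatest hne2
  have hbB : θ b = B := hb2
  refine ⟨b, c, hb1.1, hb1.2, hc1.2, hbB, hcA, ?_⟩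
  intro s hs2
  refine ⟨hA s ⟨le_trans hb1.1 hs2.1, hs2.2⟩, ?_⟩
  by_contra h
  push Not at h
  have h3 := intermediate_value_Icc' hs2.2
    (hθc.mono (Icc_subset_Icc (le_trans hb1.1 hs2.1) le_rfl))
  obtain ⟨s', hs3, hs4⟩ := h3 ⟨by linarith, h.le⟩
  have h4 : s' ≤ b := hb3 ⟨⟨le_trans (le_trans hb1.1 hs2.1) hs3.1, hs3.2⟩, hs4⟩
  have h5 : s' = s := le_antisymm (le_trans h4 hs2.1) hs3.1
  rw [h5] at hs4
  linarith

theorem cos_nonneg_band {x : ℝ} (h1 : 3 * π / 2 ≤ x) (h2 : x ≤ 5 * π / 2) : 0 ≤ Real.cos x := by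
  rw [← Real.cos_sub_two_pi]
  apply Real.cos_nonneg_of_mem_Icc
  constructor <;> linarith

/-- if the angle from `a t` still has to unwind by more than a turn, the curve meets the vertical
line through `a t` near `a t` -/
theorem cross_aux {a L : ℝ → ℂ} (ha : Continuous a)
    (hinj : ∀ s s' : ℝ, Complex.exp (a s) = Complex.exp (a s') → s = s') (hL : Continuous L)
    {t : ℝ} (hE : ∀ s, t < s → Complex.exp (L s) * ((s - t : ℝ) : ℂ) = a t - a s) {s0 sK : ℝ}
    (ht : t < s0) (h0 : 5 * π / 2 ≤ (L s0).im) (hK : ∀ s, sK ≤ s → (L s).im ≤ 3 * π / 2) :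
    ∃ b, s0 ≤ b ∧ b ≤ sK ∧ (a b).re = (a t).re ∧ |(a b).im - (a t).im| ≤ 2 * π := by
  have hpi := Real.pi_pos
  have hs : s0 ≤ sK := by
    by_contra h
    push Not at h
    have := hK s0 h.le
    linarith
  obtain ⟨b, c, hb, hbc, hc, hθb, hθc, hband⟩ := band_cross (θ := fun s => (L s).im)
    (A := 3 * π / 2) (B := 5 * π / 2) (by linarith) hs (by fun_prop) h0 (hK sK le_rfl)
  have hre : ∀ s, t < s → (a t).re - (a s).re = (Real.exp (L s).re * Real.cos (L s).im) * (s - t) := by
    intro s hs2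
    rw [← Complex.sub_re, ← hE s hs2, Complex.re_mul_ofReal, Complex.exp_re]
  have him : ∀ s, t < s → (a t).im - (a s).im = (Real.exp (L s).re * Real.sin (L s).im) * (s - t) := by
    intro s hs2
    rw [← Complex.sub_im, ← hE s hs2, Complex.im_mul_ofReal, Complex.exp_im]
  have htb : t < b := by linarith
  have htc : t < c := by linarith
  have hcos1 : Real.cos (5 * π / 2) = 0 := by
    rw [show 5 * π / 2 = π / 2 + 2 * π by ring, Real.cos_add_two_pi, Real.cos_pi_div_two]
  have hsin1 : Real.sin (5 * π / 2) = 1 := by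
    rw [show 5 * π / 2 = π / 2 + 2 * π by ring, Real.sin_add_two_pi, Real.sin_pi_div_two]
  have hcos2 : Real.cos (3 * π / 2) = 0 := by
    rw [show 3 * π / 2 = π / 2 + π by ring, Real.cos_add_pi, Real.cos_pi_div_two, neg_zero]
  have hsin2 : Real.sin (3 * π / 2) = -1 := by
    rw [show 3 * π / 2 = π / 2 + π by ring, Real.sin_add_pi, Real.sin_pi_div_two]
  have e1 : (a b).re = (a t).re := by
    have := hre b htb
    rw [hθb, hcos1] at this
    linarith
  have e2 : (a c).re = (a t).re := by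
    have := hre c htc
    rw [hθc, hcos2] at this
    linarith
  have e3 : (a b).im ≤ (a t).im := by
    have h1 := him b htb
    rw [hθb, hsin1, mul_one] at h1
    have h2 := mul_nonneg (Real.exp_pos (L b).re).le (by linarith : 0 ≤ b - t)
    linarith
  have e4 : (a t).im ≤ (a c).im := by
    have h1 := him c htc
    rw [hθc, hsin2] at h1
    have h2 := mul_nonneg (Real.exp_pos (L c).re).le (by linarith : 0 ≤ c - t)
    linarith
  have e5 : |(a c).im - (a b).im| ≤ 2 * π := by
    apply half_plane ha hinj (x0 := (a t).re) _ e1 e2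
    intro s hs2
    rw [uIcc_of_le hbc] at hs2
    have h1 := hre s (by linarith [hs2.1])
    have h2 := cos_nonneg_band (hband s hs2).1 (hband s hs2).2
    have h3 := mul_nonneg (mul_nonneg (Real.exp_pos (L s).re).le h2)
      (by linarith [hs2.1] : 0 ≤ s - t)
    linarith
  have e6 := (abs_le.1 e5).2
  refine ⟨b, hb, by linarith, e1, ?_⟩
  rw [abs_le]
  constructor <;> linarith

theorem cross {a L : ℝ → ℂ} (ha : Continuous a)
    (hinj : ∀ s s' : ℝ, Complex.exp (a s) = Complex.exp (a s') → s = s') (hL : Continuous L)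
    {t : ℝ} (hE : ∀ s, t < s → Complex.exp (L s) * ((s - t : ℝ) : ℂ) = a t - a s) {s0 sK : ℝ}
    (ht : t < s0) (h0 : 5 * π / 2 ≤ |(L s0).im|) (hK : ∀ s, sK ≤ s → |(L s).im| ≤ 3 * π / 2) :
    ∃ b, s0 ≤ b ∧ b ≤ sK ∧ (a b).re = (a t).re ∧ |(a b).im - (a t).im| ≤ 2 * π := by
  rcases le_abs.1 h0 with h | h
  · exact cross_aux ha hinj hL hE ht h (fun s hs => (le_abs_self _).trans (hK s hs))
  · obtain ⟨b, h1, h2, h3, h4⟩ := cross_aux (a := fun s => starRingEnd ℂ (a s))
      (L := fun s => starRingEnd ℂ (L s)) (t := t) (s0 := s0) (sK := sK)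
      (Complex.continuous_conj.comp ha)
      (by
        intro s s' hss
        simp only [Complex.exp_conj] at hss
        exact hinj s s' ((starRingEnd ℂ).injective hss))
      (Complex.continuous_conj.comp hL)
      (by
        intro s hs
        simp only [Complex.exp_conj]
        rw [← Complex.conj_ofReal (s - t), ← map_mul, hE s hs, map_sub]) ht
      (by simpa using h)
      (by
        intro s hs
        simp only [Complex.conj_im]
        exact (neg_le_abs _).trans (hK s hs))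
    refine ⟨b, h1, h2, by simpa using h3, ?_⟩
    simp only [Complex.conj_im] at h4
    rw [show (a b).im - (a t).im = -(-(a b).im - -(a t).im) by ring, abs_neg]
    exact h4

end Pool.Agent.Helper66.G4
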