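import Pool.Agent.Helper66.G4.Top
import Pool.Agent.Helper90.G2.Koebe

/-!
# G4 core, part 4: the holomorphic extension of the curve

`a s = log (F (u + e^(-s)) - F u)` extends to a holomorphic function of `s` on the half strip
`-1 < re`, `|im| < π / 2`, and `exp` of it is injective.
-/

set_option autoImplicit false

namespace Pool.Agent.Helper66.G4

open Set Filter Topology Metric
open scoped Real
open Pool.Agent.Helper90.G2 (Fn)

/-- the half strip -/
def Sg : Set ℂ := {σ | -1 < σ.re ∧ |σ.im| < π / 2}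

theorem Sg_open : IsOpen Sg :=
  (isOpen_lt continuous_const Complex.continuous_re).inter
    (isOpen_lt Complex.continuous_im.abs continuous_const)

theorem Sg_convex : Convex ℝ Sg := by
  have h1 : Sg = (Complex.reLm ⁻¹' Ioi (-1)) ∩ (Complex.imLm ⁻¹' Ioo (-(π / 2)) (π / 2)) := by
    ext σ
    simp only [Sg, mem_setOf_eq, mem_inter_iff, mem_preimage, mem_Ioi, mem_Ioo, abs_lt,
      Complex.reLm_coe, Complex.imLm_coe]
  rw [h1]
  exact ((convex_Ioi _).linear_preimage _).inter ((convex_Ioo _ _).linear_preimage _)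

theorem mem_Sg_real {s : ℝ} (hs : -1 < s) : (s : ℂ) ∈ Sg := by
  refine ⟨by simpa using hs, ?_⟩
  rw [Complex.ofReal_im, abs_zero]
  positivity

/-- a continuous branch of the logarithm is differentiable -/
theorem hasDerivAt_branch {f G : ℂ → ℂ} {z G' : ℂ} (hf : ContinuousAt f z)
    (hE : ∀ᶠ w in 𝓝 z, Complex.exp (f w) = G w) (hG : HasDerivAt G G' z) :
    HasDerivAt f (G' / G z) z := by
  have hz : Complex.exp (f z) = G z := hE.self_of_nhds
  have hne : G z ≠ 0 := by
    rw [← hz]
    exact Complex.exp_ne_zero _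
  have h1 : HasDerivAt (fun w => f z + Complex.log (G w / G z)) (G' / G z) z := by
    have h2 : HasDerivAt (fun w => Complex.log (G w / G z)) ((G' / G z) / (G z / G z)) z := by
      apply (hG.div_const (G z)).clog
      rw [div_self hne]
      exact Complex.one_mem_slitPlane
    rw [div_self hne, div_one] at h2
    exact h2.const_add (f z)
  refine h1.congr_of_eventuallyEq ?_
  have h3 : ∀ᶠ w in 𝓝 z, ‖f w - f z‖ < π := by
    have h4 : Tendsto (fun w => ‖f w - f z‖) (𝓝 z) (𝓝 0) := by
      have := (hf.sub (continuousAt_const (y := f z))).norm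
      simpa using this.tendsto
    exact h4.eventually (gt_mem_nhds Real.pi_pos)
  filter_upwards [hE, h3] with w hw hw3
  have h5 := Complex.abs_im_le_norm (f w - f z)
  have h6 : |(f w - f z).im| < π := lt_of_le_of_lt h5 hw3
  rw [abs_lt] at h6
  rw [← hw, ← hz, ← Complex.exp_sub, Complex.log_exp h6.1 h6.2.le]
  ring

/-- a continuous function on an interval with `exp = 1` is constant -/
theorem const_of_exp_one {f : ℝ → ℂ} {x y : ℝ} (hf : ContinuousOn f (uIcc x y))
    (h1 : ∀ s ∈ uIcc x y, Complex.exp (f s) = 1) : f y = f x := by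
  have hre : ∀ s ∈ uIcc x y, (f s).re = 0 := by
    intro s hs
    have h2 := congrArg norm (h1 s hs)
    rw [Complex.norm_exp, norm_one] at h2
    simpa using h2
  have him : ∀ s ∈ uIcc x y, ∃ n : ℤ, (f s).im = n * (2 * π) := by
    intro s hs
    obtain ⟨n, hn⟩ := Complex.exp_eq_one_iff.1 (h1 s hs)
    refine ⟨n, ?_⟩
    rw [hn]
    simp
  have hc : ContinuousOn (fun s => (f s).im) (uIcc x y) :=
    Complex.continuous_im.comp_continuousOn hf
  apply Complex.ext
  · rw [hre y right_mem_uIcc, hre x left_mem_uIcc]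
  · by_contra hne
    obtain ⟨n, hn⟩ := him x left_mem_uIcc
    obtain ⟨m, hm⟩ := him y right_mem_uIcc
    have hpi := Real.pi_pos
    have key : ∀ k : ℤ, (k : ℝ) * (2 * π) + π ∈ uIcc (f x).im (f y).im → False := by
      intro k hk
      obtain ⟨s, hs, hsk⟩ := intermediate_value_uIcc hc hk
      obtain ⟨l, hl⟩ := him s hs
      simp only at hsk
      rw [hl] at hsk
      have h3 : ((2 * l - 2 * k - 1 : ℤ) : ℝ) * π = 0 := by
        push_cast
        linarith
      rcases mul_eq_zero.1 h3 with h4 | h4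
      · have h5 : (2 * l - 2 * k - 1 : ℤ) = 0 := by exact_mod_cast h4
        omega
      · exact hpi.ne' h4
    rcases lt_trichotomy n m with h | h | h
    · apply key n
      have h' : (n : ℝ) + 1 ≤ m := by exact_mod_cast h
      rw [hn, hm, uIcc_of_le (by nlinarith)]
      constructor <;> nlinarith
    · apply hne
      rw [hn, hm, h]
    · apply key m
      have h' : (m : ℝ) + 1 ≤ n := by exact_mod_cast h
      rw [hn, hm, uIcc_of_ge (by nlinarith)]
      constructor <;> nlinarith

/-- where the points of the half strip go -/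
theorem strip_mem {u σ : ℂ} (hu : 0 < u.re) (hσ : σ ∈ Sg) :
    0 < (u + Complex.exp (-σ)).re ∧ |(u + Complex.exp (-σ)).im - u.im| < π := by
  obtain ⟨h1, h2⟩ := hσ
  rw [abs_lt] at h2
  have hc : 0 < Real.cos σ.im := Real.cos_pos_of_mem_Ioo ⟨h2.1, h2.2⟩
  constructor
  · rw [Complex.add_re, Complex.exp_re, Complex.neg_re, Complex.neg_im, Real.cos_neg]
    have := mul_pos (Real.exp_pos (-σ.re)) hc
    linarith
  · rw [Complex.add_im, add_sub_cancel_left]
    have h3 := Complex.abs_im_le_norm (Complex.exp (-σ))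
    rw [Complex.norm_exp, Complex.neg_re] at h3
    have h4 : Real.exp (-σ.re) < Real.exp 1 := Real.exp_lt_exp.2 (by linarith)
    have h5 := Real.exp_one_lt_d9
    have h6 := Real.pi_gt_three
    linarith

theorem strip_exp_inj {σ σ' : ℂ} (h : σ ∈ Sg) (h' : σ' ∈ Sg)
    (he : Complex.exp (-σ) = Complex.exp (-σ')) : σ = σ' := by
  have hpi := Real.pi_pos
  have h1 := abs_lt.1 h.2
  have h2 := abs_lt.1 h'.2
  have h3 := congrArg Complex.log he
  rw [Complex.log_exp (by rw [Complex.neg_im]; linarith) (by rw [Complex.neg_im]; linarith),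
    Complex.log_exp (by rw [Complex.neg_im]; linarith) (by rw [Complex.neg_im]; linarith)] at h3
  exact neg_injective h3

theorem ext {F : ℂ → ℂ} {A : ℝ} (hF : Fn F A) {u : ℂ} (hu : 0 < u.re) {a : ℝ → ℂ}
    (ha : Continuous a)
    (hE : ∀ s : ℝ, Complex.exp (a s) = F (u + (Real.exp (-s) : ℝ)) - F u) :
    ∃ B : ℂ → ℂ, DifferentiableOn ℂ B Sg ∧
      (∀ σ ∈ Sg, ∀ σ' ∈ Sg, Complex.exp (B σ) = Complex.exp (B σ') → σ = σ') ∧
      ∀ s : ℝ, -1 < s → B s = a s := by
  have hu' : u ∈ {v : ℂ | 0 < v.re ∧ |v.im - u.im| < π} := by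
    refine ⟨hu, ?_⟩
    rw [sub_self, abs_zero]
    exact Real.pi_pos
  have hGne : ∀ σ ∈ Sg, F (u + Complex.exp (-σ)) - F u ≠ 0 := by
    intro σ hσ h
    have h1 := hF.inj u.im (strip_mem hu hσ) hu' (sub_eq_zero.1 h)
    have h2 : Complex.exp (-σ) = 0 := by linear_combination h1
    exact Complex.exp_ne_zero _ h2
  have hGd : ∀ σ ∈ Sg, HasDerivAt (fun σ => F (u + Complex.exp (-σ)) - F u)
      (deriv F (u + Complex.exp (-σ)) * (Complex.exp (-σ) * -1)) σ := by
    intro σ hσ
    have h1 : HasDerivAt F (deriv F (u + Complex.exp (-σ))) (u + Complex.exp (-σ)) :=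
      (hF.diff.differentiableAt
        (Pool.Agent.Helper90.G2.kb_open.mem_nhds (strip_mem hu hσ).1)).hasDerivAt
    have h2 : HasDerivAt (fun σ : ℂ => u + Complex.exp (-σ)) (Complex.exp (-σ) * -1) σ :=
      ((hasDerivAt_neg σ).cexp).const_add u
    exact (h1.comp σ h2).sub_const (F u)
  have hGc : ContinuousOn (fun σ => F (u + Complex.exp (-σ)) - F u) Sg := fun σ hσ =>
    (hGd σ hσ).continuousAt.continuousWithinAt
  have h0 : (0 : ℂ) ∈ Sg := by
    have := mem_Sg_real (s := 0) (by norm_num)
    simpa using this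
  obtain ⟨L, hL, hLE⟩ := exists_log_convex Sg_convex Sg_open ⟨0, h0⟩ hGc hGne
  have hB1 : Complex.exp (L 0 - a 0) = 1 := by
    rw [Complex.exp_sub, hLE 0 h0, hE 0, div_eq_one_iff_eq]
    · simp
    · have := hGne 0 h0
      simpa using this
  have hBE : ∀ σ ∈ Sg, Complex.exp (L σ - (L 0 - a 0)) = F (u + Complex.exp (-σ)) - F u := by
    intro σ hσ
    rw [Complex.exp_sub, hB1, div_one, hLE σ hσ]
  refine ⟨fun σ => L σ - (L 0 - a 0), ?_, ?_, ?_⟩
  · intro σ hσ
    have h1 : ContinuousAt (fun σ => L σ - (L 0 - a 0)) σ :=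
      ((hL σ hσ).continuousAt (Sg_open.mem_nhds hσ)).sub continuousAt_const
    have h2 := hasDerivAt_branch (G := fun σ => F (u + Complex.exp (-σ)) - F u) h1
      (by
        filter_upwards [Sg_open.mem_nhds hσ] with w hw
        exact hBE w hw) (hGd σ hσ)
    exact h2.differentiableAt.differentiableWithinAt
  · intro σ hσ σ' hσ' h
    simp only at h
    rw [hBE σ hσ, hBE σ' hσ'] at h
    have h1 := hF.inj u.im (strip_mem hu hσ) (strip_mem hu hσ') (sub_left_injective h)
    exact strip_exp_inj hσ hσ' (add_left_cancel h1)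
  · intro s hs
    simp only
    have h1 : ∀ x ∈ uIcc 0 s, -1 < x := by
      intro x hx
      have := hx.1
      have h2 : min (0:ℝ) s ≤ x := this
      have h3 : -1 < min (0:ℝ) s := lt_min (by norm_num) hs
      linarith
    have h2 := const_of_exp_one (f := fun x : ℝ => L x - (L 0 - a 0) - a x) (x := 0) (y := s)
      (by
        apply ContinuousOn.sub
        · apply ContinuousOn.sub _ continuousOn_const
          intro x hx
          have h3 := (hL x (mem_Sg_real (h1 x hx))).continuousAt
            (Sg_open.mem_nhds (mem_Sg_real (h1 x hx)))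
          exact (h3.comp Complex.continuous_ofReal.continuousAt).continuousWithinAt
        · exact ha.continuousOn)
      (by
        intro x hx
        rw [Complex.exp_sub, hBE x (mem_Sg_real (h1 x hx)), hE x]
        have h3 : (Complex.exp (-(x:ℂ))) = ((Real.exp (-x) : ℝ) : ℂ) := by push_cast; rfl
        rw [h3, div_self]
        rw [← hE x]
        exact Complex.exp_ne_zero _)
    simp only [Complex.ofReal_zero, sub_sub_cancel, sub_self] at h2
    linear_combination h2

end Pool.Agent.Helper66.G4
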