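import Pool.Agent.Helper90.G2.Area

/-!
# G4 core, part 5: `|ζ|^(-2) |log ζ|^(-3/2)` is integrable over the plane
-/

set_option autoImplicit false

namespace Pool.Agent.Helper66.G4

open Set Filter Topology Metric MeasureTheory
open scoped Real ENNReal

theorem lint_abs_le (f : ℝ → ℝ≥0∞) : ∫⁻ x, f |x| ≤ 2 * ∫⁻ x in Ioi 0, f x := by
  have h1 : ∫⁻ x in Ioi (0:ℝ), f |x| = ∫⁻ x in Ioi (0:ℝ), f x :=
    setLIntegral_congr_fun measurableSet_Ioi (fun x hx => by
      have hx' : 0 < x := hx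
      simp only [abs_of_pos hx'])
  have h2 : ∫⁻ x in Iic (0:ℝ), f |x| = ∫⁻ x in Ioi (0:ℝ), f x := by
    rw [setLIntegral_congr (Iio_ae_eq_Iic (a := (0:ℝ)) (μ := volume)).symm]
    have h3 := (Measure.measurePreserving_neg (volume : Measure ℝ)).setLIntegral_comp_preimage_emb
      (MeasurableEquiv.neg ℝ).measurableEmbedding f (Ioi 0)
    rw [← h3]
    have h4 : (Neg.neg : ℝ → ℝ) ⁻¹' Ioi 0 = Iio 0 := by
      ext x
      simp
    rw [h4]
    exact setLIntegral_congr_fun measurableSet_Iio (fun x hx => by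
      have hx' : x < 0 := hx
      simp only [abs_of_neg hx'])
  rw [← lintegral_add_compl (fun x => f |x|) (measurableSet_Ioi (a := (0:ℝ))), compl_Ioi, h1, h2,
    two_mul]

/-- the horizontal factor -/
noncomputable def k1 (x : ℝ) : ℝ := min (x ^ (-(3 / 4) : ℝ)) (x ^ (-(3 / 2) : ℝ))

/-- the vertical factor -/
noncomputable def k2 (x : ℝ) : ℝ := if x < π then x ^ (-(3 / 4) : ℝ) else 0

theorem rpow34_fin (M : ℝ) (hM : 0 ≤ M) :
    ∫⁻ x in Ioc 0 M, ENNReal.ofReal (x ^ (-(3 / 4) : ℝ)) < ⊤ := by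
  have h := (intervalIntegral.intervalIntegrable_rpow' (a := 0) (b := M) (r := -(3 / 4))
    (by norm_num))
  rw [intervalIntegrable_iff_integrableOn_Ioc_of_le hM] at h
  exact h.lintegral_lt_top

theorem k1_fin : ∫⁻ x, ENNReal.ofReal (k1 |x|) < ⊤ := by
  refine lt_of_le_of_lt (lint_abs_le (fun x => ENNReal.ofReal (k1 x))) ?_
  apply ENNReal.mul_lt_top (by simp)
  have h1 : Ioi (0:ℝ) = Ioc 0 1 ∪ Ioi 1 := (Ioc_union_Ioi_eq_Ioi zero_le_one).symm
  rw [h1]
  refine lt_of_le_of_lt (lintegral_union_le _ _ _) ?_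
  apply ENNReal.add_lt_top.2
  constructor
  · refine lt_of_le_of_lt (lintegral_mono fun x => ?_) (rpow34_fin 1 zero_le_one)
    exact ENNReal.ofReal_le_ofReal (min_le_left _ _)
  · have h2 := (integrableOn_Ioi_rpow_of_lt (a := -(3 / 2)) (c := 1) (by norm_num)
      one_pos).lintegral_lt_top
    refine lt_of_le_of_lt (lintegral_mono fun x => ?_) h2
    exact ENNReal.ofReal_le_ofReal (min_le_right _ _)

theorem k2_fin : ∫⁻ x, ENNReal.ofReal (k2 |x|) < ⊤ := by
  refine lt_of_le_of_lt (lint_abs_le (fun x => ENNReal.ofReal (k2 x))) ?_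
  apply ENNReal.mul_lt_top (by simp)
  have h1 : Ioi (0:ℝ) = Ioc 0 π ∪ Ioi π := (Ioc_union_Ioi_eq_Ioi Real.pi_pos.le).symm
  rw [h1]
  refine lt_of_le_of_lt (lintegral_union_le _ _ _) ?_
  apply ENNReal.add_lt_top.2
  constructor
  · refine lt_of_le_of_lt (setLIntegral_mono' measurableSet_Ioc fun x hx => ?_)
      (rpow34_fin π Real.pi_pos.le)
    apply ENNReal.ofReal_le_ofReal
    unfold k2
    split_ifs
    · exact le_rfl
    · exact Real.rpow_nonneg hx.1.le _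
  · have h2 : ∫⁻ x in Ioi π, ENNReal.ofReal (k2 x) = ∫⁻ x in Ioi π, 0 := by
      apply setLIntegral_congr_fun measurableSet_Ioi
      intro x hx
      have hx' : ¬ x < π := not_lt.2 (le_of_lt hx)
      simp only [k2, if_neg hx', ENNReal.ofReal_zero]
    rw [h2, lintegral_zero]
    exact ENNReal.zero_lt_top

/-- pointwise bound of the kernel by a product -/
theorem ker_le {z : ℂ} (hx : z.re ≠ 0) (hy : z.im ≠ 0) (hpi : |z.im| < π) :
    ‖z‖ ^ (-(3 / 2) : ℝ) ≤ 4 * (k1 |z.re| * k2 |z.im|) := by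
  have hx' : 0 < |z.re| := abs_pos.2 hx
  have hy' : 0 < |z.im| := abs_pos.2 hy
  have h1 : |z.re| ≤ ‖z‖ := Complex.abs_re_le_norm z
  have h2 : |z.im| ≤ ‖z‖ := Complex.abs_im_le_norm z
  have hz : 0 < ‖z‖ := lt_of_lt_of_le hx' h1
  have e1 : ‖z‖ ^ (-(3 / 2) : ℝ) ≤ |z.re| ^ (-(3 / 4) : ℝ) * |z.im| ^ (-(3 / 4) : ℝ) := by
    have h3 : ‖z‖ ^ (-(3 / 2) : ℝ) = ‖z‖ ^ (-(3 / 4) : ℝ) * ‖z‖ ^ (-(3 / 4) : ℝ) := by
      rw [← Real.rpow_add hz]
      norm_num
    rw [h3]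
    exact mul_le_mul (Real.rpow_le_rpow_of_nonpos hx' h1 (by norm_num))
      (Real.rpow_le_rpow_of_nonpos hy' h2 (by norm_num)) (Real.rpow_nonneg hz.le _)
      (Real.rpow_nonneg hx'.le _)
  have e2 : ‖z‖ ^ (-(3 / 2) : ℝ) ≤ |z.re| ^ (-(3 / 2) : ℝ) :=
    Real.rpow_le_rpow_of_nonpos hx' h1 (by norm_num)
  have e3 : 1 ≤ 4 * |z.im| ^ (-(3 / 4) : ℝ) := by
    have h3 : |z.im| ^ ((3 / 4) : ℝ) ≤ 4 := by
      have h4 : |z.im| ≤ 4 := by linarith [Real.pi_lt_four]
      calc |z.im| ^ ((3 / 4) : ℝ) ≤ (4:ℝ) ^ ((3 / 4) : ℝ) :=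
            Real.rpow_le_rpow hy'.le h4 (by norm_num)
        _ ≤ (4:ℝ) ^ (1 : ℝ) := Real.rpow_le_rpow_of_exponent_le (by norm_num) (by norm_num)
        _ = 4 := Real.rpow_one 4
    rw [Real.rpow_neg hy'.le, ← div_eq_mul_inv, le_div_iff₀ (Real.rpow_pos_of_pos hy' _)]
    linarith
  have hk2 : k2 |z.im| = |z.im| ^ (-(3 / 4) : ℝ) := by
    unfold k2
    rw [if_pos hpi]
  have hY : 0 ≤ |z.im| ^ (-(3 / 4) : ℝ) := Real.rpow_nonneg hy'.le _
  have hX : 0 ≤ |z.re| ^ (-(3 / 2) : ℝ) := Real.rpow_nonneg hx'.le _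
  have hX' : 0 ≤ |z.re| ^ (-(3 / 4) : ℝ) := Real.rpow_nonneg hx'.le _
  rw [hk2]
  unfold k1
  rcases min_choice (|z.re| ^ (-(3 / 4) : ℝ)) (|z.re| ^ (-(3 / 2) : ℝ)) with h | h
  · rw [h]
    have := mul_nonneg hX' hY
    linarith
  · rw [h]
    calc ‖z‖ ^ (-(3 / 2) : ℝ) ≤ |z.re| ^ (-(3 / 2) : ℝ) := e2
      _ = |z.re| ^ (-(3 / 2) : ℝ) * 1 := (mul_one _).symm
      _ ≤ |z.re| ^ (-(3 / 2) : ℝ) * (4 * |z.im| ^ (-(3 / 4) : ℝ)) :=
          mul_le_mul_of_nonneg_left e3 hX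
      _ = 4 * (|z.re| ^ (-(3 / 2) : ℝ) * |z.im| ^ (-(3 / 4) : ℝ)) := by ring

/-- the open strip -/
def St : Set ℂ := {z | |z.im| < π}

theorem St_meas : MeasurableSet St :=
  measurableSet_lt (Complex.measurable_im.norm) measurable_const

theorem strip_fin : ∫⁻ z in St, ENNReal.ofReal (‖z‖ ^ (-(3 / 2) : ℝ)) < ⊤ := by
  rw [← lintegral_indicator St_meas]
  have h1 := (Complex.volume_preserving_equiv_real_prod.symm).lintegral_comp_emb
    Complex.measurableEquivRealProd.symm.measurableEmbedding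
    (St.indicator fun z => ENNReal.ofReal (‖z‖ ^ (-(3 / 2) : ℝ)))
  rw [← h1]
  have h2 : ∀ᵐ p : ℝ × ℝ, p.1 ≠ 0 :=
    (Measure.quasiMeasurePreserving_fst (μ := (volume : Measure ℝ))
      (ν := (volume : Measure ℝ))).ae (Measure.ae_ne volume (0:ℝ))
  have h3 : ∀ᵐ p : ℝ × ℝ, p.2 ≠ 0 :=
    (Measure.quasiMeasurePreserving_snd (μ := (volume : Measure ℝ))
      (ν := (volume : Measure ℝ))).ae (Measure.ae_ne volume (0:ℝ))
  have m1 : Measurable k1 := by
    unfold k1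
    fun_prop
  have m2 : Measurable k2 := by
    unfold k2
    exact Measurable.ite (measurableSet_lt measurable_id measurable_const) (by fun_prop)
      measurable_const
  have h4 : ∫⁻ p : ℝ × ℝ, (St.indicator fun z => ENNReal.ofReal (‖z‖ ^ (-(3 / 2) : ℝ)))
      (Complex.measurableEquivRealProd.symm p) ≤
      ∫⁻ p : ℝ × ℝ, 4 * (ENNReal.ofReal (k1 |p.1|) * ENNReal.ofReal (k2 |p.2|)) := by
    apply lintegral_mono_ae
    filter_upwards [h2, h3] with p hp1 hp2
    by_cases hm : Complex.measurableEquivRealProd.symm p ∈ St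
    · rw [indicator_of_mem hm]
      have h5 := ker_le (z := Complex.measurableEquivRealProd.symm p) (by simpa using hp1)
        (by simpa using hp2) hm
      simp only [Complex.measurableEquivRealProd_symm_apply] at h5 ⊢
      have h6 : 0 ≤ k1 |p.1| := le_min (Real.rpow_nonneg (abs_nonneg _) _)
        (Real.rpow_nonneg (abs_nonneg _) _)
      calc ENNReal.ofReal (‖(⟨p.1, p.2⟩ : ℂ)‖ ^ (-(3 / 2) : ℝ))
          ≤ ENNReal.ofReal (4 * (k1 |p.1| * k2 |p.2|)) := ENNReal.ofReal_le_ofReal h5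
        _ = 4 * (ENNReal.ofReal (k1 |p.1|) * ENNReal.ofReal (k2 |p.2|)) := by
            rw [ENNReal.ofReal_mul (by norm_num), ENNReal.ofReal_mul h6]
            norm_num
    · rw [indicator_of_notMem hm]
      exact zero_le
  refine lt_of_le_of_lt h4 ?_
  rw [lintegral_const_mul _ (by fun_prop)]
  apply ENNReal.mul_lt_top (by norm_num)
  rw [Measure.volume_eq_prod, lintegral_prod_mul (f := fun x => ENNReal.ofReal (k1 |x|))
    (g := fun x => ENNReal.ofReal (k2 |x|)) (by fun_prop) (by fun_prop)]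
  exact ENNReal.mul_lt_top k1_fin k2_fin

/-- change of variables for a holomorphic injective map -/
theorem cv {f : ℂ → ℂ} {U : Set ℂ} (hUm : MeasurableSet U) (hU : ∀ z ∈ U, DifferentiableAt ℂ f z)
    (hi : InjOn f U) (g : ℂ → ℝ≥0∞) :
    ∫⁻ w in f '' U, g w = ∫⁻ z in U, ENNReal.ofReal (‖deriv f z‖ ^ 2) * g (f z) := by
  have h1 : ∀ u ∈ U, HasFDerivWithinAt f (deriv f u • (1 : ℂ →L[ℝ] ℂ)) U u := by
    intro u hu
    exact (hU u hu).hasDerivAt.complexToReal_fderiv.hasFDerivWithinAt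
  rw [lintegral_image_eq_lintegral_abs_det_fderiv_mul volume hUm h1 hi]
  simp_rw [Pool.Agent.Helper90.G2.area_det_smul_one]

theorem exp_image : Complex.exp '' St = Complex.slitPlane := by
  ext z
  constructor
  · rintro ⟨w, hw, rfl⟩
    have hw' : |w.im| < π := hw
    rw [abs_lt] at hw'
    rw [Complex.mem_slitPlane_iff_arg]
    refine ⟨?_, Complex.exp_ne_zero _⟩
    have h1 : Complex.arg (Complex.exp w) = w.im := by
      rw [← Complex.log_im, Complex.log_exp hw'.1 hw'.2.le]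
    rw [h1]
    exact hw'.2.ne
  · intro hz
    rw [Complex.mem_slitPlane_iff_arg] at hz
    refine ⟨Complex.log z, ?_, Complex.exp_log hz.2⟩
    show |(Complex.log z).im| < π
    rw [Complex.log_im, abs_lt]
    exact ⟨Complex.neg_pi_lt_arg z, lt_of_le_of_ne (Complex.arg_le_pi z) hz.1⟩

theorem slit_ae : (Complex.slitPlane : Set ℂ) =ᵐ[volume] univ := by
  have h1 := Complex.volume_preserving_equiv_real_prod.quasiMeasurePreserving.preimage_ae_eq
    polarCoord_source_ae_eq_univ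
  have h2 : Complex.measurableEquivRealProd ⁻¹' polarCoord.source = Complex.slitPlane := by
    ext z
    rw [mem_preimage, polarCoord_source, Complex.mem_slitPlane_iff]
    simp
  rw [h2] at h1
  simpa using h1

/-- the weight in the `ζ` plane -/
noncomputable def wz (ζ : ℂ) : ℝ≥0∞ :=
  ENNReal.ofReal ((‖ζ‖ ^ 2)⁻¹ * ‖Complex.log ζ‖ ^ (-(3 / 2) : ℝ))

theorem plane_fin : ∫⁻ ζ, wz ζ < ⊤ := by
  rw [← setLIntegral_univ, ← setLIntegral_congr slit_ae, ← exp_image,
    cv St_meas (fun z _ => Complex.differentiable_exp z) (by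
      intro z hz w hw h
      have hz' : |z.im| < π := hz
      have hw' : |w.im| < π := hw
      rw [abs_lt] at hz' hw'
      have h1 := congrArg Complex.log h
      rwa [Complex.log_exp hz'.1 hz'.2.le, Complex.log_exp hw'.1 hw'.2.le] at h1)]
  refine lt_of_le_of_lt (le_of_eq ?_) strip_fin
  apply setLIntegral_congr_fun St_meas
  intro z hz
  have hz' : |z.im| < π := hz
  rw [abs_lt] at hz'
  simp only [wz]
  rw [Complex.log_exp hz'.1 hz'.2.le, Complex.deriv_exp, ← ENNReal.ofReal_mul (by positivity),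
    ← mul_assoc, mul_inv_cancel₀, one_mul]
  have := norm_pos_iff.2 (Complex.exp_ne_zero z)
  positivity

end Pool.Agent.Helper66.G4
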