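import Pool.Agent.Helper66.G4.Kern
import Pool.Agent.Helper66.G4.Quot
import Pool.Agent.Helper66.G4.Ext

/-!
# G4 core, part 6: the length-area estimate in the half strip
-/

set_option autoImplicit false
set_option linter.unusedSectionVars false

namespace Pool.Agent.Helper66.G4

open Set Filter Topology Metric MeasureTheory
open scoped Real ENNReal

/-- the far strip -/
def Uf (t : ℝ) : Set ℂ := {σ | t + 1 / 4 < σ.re ∧ |σ.im| < 1 / 4}

theorem Uf_open (t : ℝ) : IsOpen (Uf t) :=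
  (isOpen_lt continuous_const Complex.continuous_re).inter
    (isOpen_lt Complex.continuous_im.abs continuous_const)

theorem Uf_sub {t : ℝ} (ht : 0 ≤ t) : Uf t ⊆ Sg := by
  intro σ hσ
  have hpi := Real.pi_gt_three
  exact ⟨by linarith [hσ.1], by linarith [hσ.2]⟩

theorem ball_sub_Sg {s r : ℝ} (hs : 0 ≤ s) (hr : r ≤ 1) : ball (s : ℂ) r ⊆ Sg := by
  intro σ hσ
  have hpi := Real.pi_gt_three
  rw [mem_ball, dist_eq_norm] at hσ
  have h1 := Complex.abs_re_le_norm (σ - s)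
  have h2 := Complex.abs_im_le_norm (σ - s)
  rw [Complex.sub_re, Complex.ofReal_re] at h1
  rw [Complex.sub_im, Complex.ofReal_im, sub_zero] at h2
  have h3 := (abs_le.1 h1).1
  exact ⟨by linarith, by linarith⟩

theorem ball_sub_Uf {t s : ℝ} (hs : t + 1 / 2 ≤ s) : ball (s : ℂ) (1 / 4) ⊆ Uf t := by
  intro σ hσ
  rw [mem_ball, dist_eq_norm] at hσ
  have h1 := Complex.abs_re_le_norm (σ - s)
  have h2 := Complex.abs_im_le_norm (σ - s)
  rw [Complex.sub_re, Complex.ofReal_re] at h1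
  rw [Complex.sub_im, Complex.ofReal_im, sub_zero] at h2
  have h3 := (abs_le.1 h1).1
  exact ⟨by linarith, by linarith⟩

/-- the logarithmic derivative of `B - B t` -/
noncomputable def ld (B : ℂ → ℂ) (t : ℝ) (σ : ℂ) : ℂ := deriv B σ / (B σ - B t)

section

variable {B : ℂ → ℂ} (hB : DifferentiableOn ℂ B Sg)
  (hBi : ∀ σ ∈ Sg, ∀ σ' ∈ Sg, Complex.exp (B σ) = Complex.exp (B σ') → σ = σ') {t : ℝ}
  (ht : 0 ≤ t)

include hB hBi ht

theorem lenA_inj : InjOn B Sg := fun σ h σ' h' he => hBi σ h σ' h' (by rw [he])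

theorem lenA_ne {σ : ℂ} (hσ : σ ∈ Uf t) : B σ - B t ≠ 0 := by
  intro h
  have h1 := hBi σ (Uf_sub ht hσ) t (mem_Sg_real (by linarith)) (by rw [sub_eq_zero.1 h])
  have h2 := hσ.1
  rw [h1, Complex.ofReal_re] at h2
  linarith

theorem lenA_diff : DifferentiableOn ℂ (ld B t) (Uf t) := by
  have h1 : DifferentiableOn ℂ (deriv B) (Uf t) := (hB.deriv Sg_open).mono (Uf_sub ht)
  exact h1.div ((hB.mono (Uf_sub ht)).sub_const _) (fun σ hσ => lenA_ne hB hBi ht hσ)

/-- Koebe: the curve stays away from `B t` -/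
theorem lenA_far {σ : ℂ} (hσ : σ ∈ Uf t) : ‖deriv B t‖ / 16 ≤ ‖B σ - B t‖ := by
  have hs : ball (t : ℂ) (1 / 4) ⊆ Sg := ball_sub_Sg ht (by norm_num)
  have h := koebe_at (F := B) (z := (t : ℂ)) (w0 := B σ) (r := 1 / 4) (by norm_num)
    (hB.mono hs) ((lenA_inj hB hBi ht).mono hs) (by
      intro v hv he
      have h1 := hBi v (hs hv) σ (Uf_sub ht hσ) (by rw [he])
      rw [h1, mem_ball, dist_eq_norm] at hv
      have h2 := Complex.abs_re_le_norm (σ - t)
      rw [Complex.sub_re, Complex.ofReal_re] at h2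
      have h3 := (abs_le.1 h2).2
      linarith [hσ.1])
  rw [norm_sub_rev (B σ)]
  linarith

/-- the mean value step -/
theorem lenA_mean {s : ℝ} (hs : t + 1 / 2 ≤ s) :
    ENNReal.ofReal (‖ld B t s‖ ^ 2) * volume (ball (0:ℂ) (1 / 4)) ≤
      ∫⁻ σ in ball (s : ℂ) (1 / 4), ENNReal.ofReal (‖ld B t σ‖ ^ 2) := by
  have hm : MapsTo (fun z : ℂ => s + z) (ball 0 (1 / 4)) (Uf t) := by
    intro z hz
    apply ball_sub_Uf hs
    rw [mem_ball_zero_iff] at hz
    rw [mem_ball, dist_eq_norm, add_sub_cancel_left]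
    exact hz
  have h1 := Pool.Agent.Helper90.G2.area_mean_disk (g := fun z => ld B t (s + z)) (r := 1 / 4)
    ((lenA_diff hB hBi ht).comp (by fun_prop) hm)
  rw [add_zero] at h1
  refine h1.trans (le_of_eq ?_)
  rw [← lintegral_indicator isOpen_ball.measurableSet, ← lintegral_indicator
    isOpen_ball.measurableSet, ← lintegral_add_left_eq_self ((ball (s : ℂ) (1 / 4)).indicator
        fun z => ENNReal.ofReal (‖ld B t z‖ ^ 2)) (s : ℂ)]
  congr 1
  ext z
  have hb : (z ∈ ball (0 : ℂ) (1 / 4)) ↔ ((s : ℂ) + z ∈ ball (s : ℂ) (1 / 4)) := by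
    rw [mem_ball_zero_iff, mem_ball, dist_eq_norm, add_sub_cancel_left]
  by_cases hz : z ∈ ball (0 : ℂ) (1 / 4)
  · rw [indicator_of_mem hz, indicator_of_mem (hb.1 hz)]
  · rw [indicator_of_notMem hz, indicator_of_notMem (fun h => hz (hb.2 h))]

/-- the double integral -/
theorem lenA_swap {S : ℝ} :
    (∫⁻ s in Icc (t + 1 / 2) S, ENNReal.ofReal (‖ld B t s‖ ^ 2)) *
      volume (ball (0:ℂ) (1 / 4)) ≤ ∫⁻ σ in Uf t, ENNReal.ofReal (‖ld B t σ‖ ^ 2) := by
  classical
  have hc : ContinuousOn (fun σ => ENNReal.ofReal (‖ld B t σ‖ ^ 2)) (Uf t) :=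
    ENNReal.continuous_ofReal.comp_continuousOn ((lenA_diff hB hBi ht).continuousOn.norm.pow 2)
  obtain ⟨φ, hφd⟩ : ∃ φ : ℂ → ℝ≥0∞, φ = (Uf t).indicator fun σ => ENNReal.ofReal (‖ld B t σ‖ ^ 2) :=
    ⟨_, rfl⟩
  have hφ : Measurable φ := by
    rw [hφd, ← piecewise_eq_indicator]
    exact ContinuousOn.measurable_piecewise hc continuousOn_const (Uf_open t).measurableSet
  obtain ⟨D, hD⟩ : ∃ D : Set (ℝ × ℂ), D = {p : ℝ × ℂ | ‖p.2 - (p.1 : ℂ)‖ < 1 / 4} := ⟨_, rfl⟩
  have hDm : MeasurableSet D := by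
    rw [hD]
    exact measurableSet_lt (by fun_prop) measurable_const
  have hDi : ∀ (s : ℝ) (σ : ℂ), (s, σ) ∈ D ↔ ‖σ - (s : ℂ)‖ < 1 / 4 := by
    intro s σ
    rw [hD]
    rfl
  have hψ : Measurable (D.indicator fun p => φ p.2) :=
    (hφ.comp measurable_snd).indicator hDm
  rw [← lintegral_mul_const' _ _ (by
    exact (measure_ball_lt_top (μ := volume) (x := (0:ℂ)) (r := 1 / 4)).ne)]
  calc ∫⁻ s in Icc (t + 1 / 2) S, ENNReal.ofReal (‖ld B t s‖ ^ 2) * volume (ball (0:ℂ) (1 / 4))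
      ≤ ∫⁻ s in Icc (t + 1 / 2) S, ∫⁻ σ, D.indicator (fun p => φ p.2) (s, σ) := by
        apply setLIntegral_mono' measurableSet_Icc
        intro s hs
        refine (lenA_mean hB hBi ht hs.1).trans (le_of_eq ?_)
        rw [← lintegral_indicator isOpen_ball.measurableSet]
        congr 1
        ext σ
        by_cases hσ : σ ∈ ball (s : ℂ) (1 / 4)
        · have h1 : (s, σ) ∈ D := by
            rw [hDi]
            rwa [mem_ball, dist_eq_norm] at hσ
          rw [indicator_of_mem hσ, indicator_of_mem h1, hφd,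
            indicator_of_mem (ball_sub_Uf hs.1 hσ)]
        · have h1 : (s, σ) ∉ D := by
            rw [hDi]
            rwa [mem_ball, dist_eq_norm] at hσ
          rw [indicator_of_notMem hσ, indicator_of_notMem h1]
    _ = ∫⁻ σ, ∫⁻ s in Icc (t + 1 / 2) S, D.indicator (fun p => φ p.2) (s, σ) :=
        lintegral_lintegral_swap hψ.aemeasurable
    _ ≤ ∫⁻ σ, φ σ := by
        apply lintegral_mono
        intro σ
        calc ∫⁻ s in Icc (t + 1 / 2) S, D.indicator (fun p => φ p.2) (s, σ)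
            ≤ ∫⁻ s : ℝ, (Ioo (σ.re - 1 / 4) (σ.re + 1 / 4)).indicator (fun _ => φ σ) s := by
              refine (setLIntegral_le_lintegral _ _).trans (lintegral_mono fun s => ?_)
              by_cases hs : (s, σ) ∈ D
              · have hs' := (hDi s σ).1 hs
                have h2 := Complex.abs_re_le_norm (σ - s)
                rw [Complex.sub_re, Complex.ofReal_re] at h2
                have h3 := abs_le.1 h2
                rw [indicator_of_mem hs, indicator_of_mem (by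
                    constructor <;> linarith [h3.1, h3.2])]
              · rw [indicator_of_notMem hs]
                exact zero_le
          _ = φ σ * volume (Ioo (σ.re - 1 / 4) (σ.re + 1 / 4)) := by
              rw [lintegral_indicator measurableSet_Ioo, setLIntegral_const]
          _ ≤ φ σ * 1 := by
              gcongr
              rw [Real.volume_Ioo]
              apply ENNReal.ofReal_le_one.2
              linarith
          _ = φ σ := mul_one _
    _ = ∫⁻ σ in Uf t, ENNReal.ofReal (‖ld B t σ‖ ^ 2) := by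
        rw [hφd, lintegral_indicator (Uf_open t).measurableSet]

/-- pointwise comparison with the weight in the `ζ` plane -/
theorem lenA_pt {ρ : ℝ} (hρ : 0 < ρ) (hρB : ρ ≤ ‖deriv B t‖) {σ : ℂ} (hσ : σ ∈ Uf t) :
    ENNReal.ofReal (‖ld B t σ‖ ^ 2) ≤ ENNReal.ofReal (4 / Real.sqrt ρ) *
      (ENNReal.ofReal (‖deriv (fun σ => Complex.exp (B σ - B t)) σ‖ ^ 2) *
        wz (Complex.exp (B σ - B t))) := by
  have hne := lenA_ne hB hBi ht hσ
  have hfar := lenA_far hB hBi ht hσ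
  have hx : 0 < ‖B σ - B t‖ := norm_pos_iff.2 hne
  have hdB : HasDerivAt B (deriv B σ) σ :=
    (hB.differentiableAt (Sg_open.mem_nhds (Uf_sub ht hσ))).hasDerivAt
  have hder : deriv (fun σ => Complex.exp (B σ - B t)) σ =
      Complex.exp (B σ - B t) * deriv B σ := ((hdB.sub_const (B t)).cexp).deriv
  have hlog : 0 < ‖Complex.log (Complex.exp (B σ - B t))‖ := by
    rw [norm_pos_iff]
    intro h
    have h0 := Complex.exp_log (Complex.exp_ne_zero (B σ - B t))
    rw [h, Complex.exp_zero] at h0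
    rw [Complex.exp_sub, eq_comm, div_eq_one_iff_eq (Complex.exp_ne_zero _)] at h0
    have h1 := hBi σ (Uf_sub ht hσ) t (mem_Sg_real (by linarith)) h0
    have h2 := hσ.1
    rw [h1, Complex.ofReal_re] at h2
    linarith
  have hle : ‖Complex.log (Complex.exp (B σ - B t))‖ ≤ ‖B σ - B t‖ := by
    set b := B σ - B t with hb
    have hre : (Complex.log (Complex.exp b)).re = b.re := by
      rw [Complex.log_re, Complex.norm_exp, Real.log_exp]
    have him : |(Complex.log (Complex.exp b)).im| ≤ |b.im| := by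
      by_cases hbi : -π < b.im ∧ b.im ≤ π
      · rw [Complex.log_exp hbi.1 hbi.2]
      · have h3 : |(Complex.log (Complex.exp b)).im| ≤ π := by
          rw [Complex.log_im]
          exact Complex.abs_arg_le_pi _
        have h4 : π ≤ |b.im| := by
          rw [not_and_or, not_lt, not_le] at hbi
          rcases hbi with h | h
          · rw [le_abs]
            right
            linarith
          · rw [le_abs]
            left
            linarith
        linarith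
    rw [← Real.sqrt_sq (norm_nonneg (Complex.log (Complex.exp b))), ← Real.sqrt_sq (norm_nonneg b)]
    apply Real.sqrt_le_sqrt
    rw [← Complex.normSq_eq_norm_sq, ← Complex.normSq_eq_norm_sq, Complex.normSq_apply,
      Complex.normSq_apply, hre]
    have h5 := sq_le_sq.2 him
    nlinarith
  have hkey : (‖B σ - B t‖ ^ 2)⁻¹ ≤ 4 / Real.sqrt ρ *
      ‖Complex.log (Complex.exp (B σ - B t))‖ ^ (-(3 / 2) : ℝ) := by
    have h1 : (‖B σ - B t‖ ^ 2)⁻¹ = ‖B σ - B t‖ ^ (-(1 / 2) : ℝ) * ‖B σ - B t‖ ^ (-(3 / 2) : ℝ) := by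
      rw [← Real.rpow_add hx, ← Real.rpow_natCast, ← Real.rpow_neg hx.le]
      norm_num
    have h2 : ‖B σ - B t‖ ^ (-(1 / 2) : ℝ) ≤ 4 / Real.sqrt ρ := by
      have h3 : Real.sqrt ρ / 4 ≤ Real.sqrt ‖B σ - B t‖ := by
        rw [show Real.sqrt ρ / 4 = Real.sqrt (ρ / 16) by
          rw [Real.sqrt_div hρ.le, show Real.sqrt 16 = 4 by
            rw [show (16:ℝ) = 4 ^ 2 by norm_num, Real.sqrt_sq (by norm_num)]]]
        exact Real.sqrt_le_sqrt (by linarith)
      have h4 : 0 < Real.sqrt ρ := Real.sqrt_pos.2 hρ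
      have h5 : 0 < Real.sqrt ‖B σ - B t‖ := Real.sqrt_pos.2 hx
      rw [Real.rpow_neg hx.le, ← Real.sqrt_eq_rpow, ← one_div, div_le_div_iff₀ h5 h4]
      linarith
    have h3 : ‖B σ - B t‖ ^ (-(3 / 2) : ℝ) ≤
        ‖Complex.log (Complex.exp (B σ - B t))‖ ^ (-(3 / 2) : ℝ) :=
      Real.rpow_le_rpow_of_nonpos hlog hle (by norm_num)
    rw [h1]
    exact mul_le_mul h2 h3 (Real.rpow_nonneg hx.le _) (by positivity)
  have hez : 0 < ‖Complex.exp (B σ - B t)‖ := norm_pos_iff.2 (Complex.exp_ne_zero _)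
  unfold wz ld
  rw [hder, ← ENNReal.ofReal_mul (by positivity), ← ENNReal.ofReal_mul (by positivity)]
  apply ENNReal.ofReal_le_ofReal
  rw [norm_div, div_pow, norm_mul, mul_pow, div_eq_mul_inv]
  calc ‖deriv B σ‖ ^ 2 * (‖B σ - B t‖ ^ 2)⁻¹
      ≤ ‖deriv B σ‖ ^ 2 * (4 / Real.sqrt ρ *
      ‖Complex.log (Complex.exp (B σ - B t))‖ ^ (-(3 / 2) : ℝ)) :=
        mul_le_mul_of_nonneg_left hkey (by positivity)
    _ = 4 / Real.sqrt ρ * (‖Complex.exp (B σ - B t)‖ ^ 2 * ‖deriv B σ‖ ^ 2 *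
        ((‖Complex.exp (B σ - B t)‖ ^ 2)⁻¹ *
        ‖Complex.log (Complex.exp (B σ - B t))‖ ^ (-(3 / 2) : ℝ))) := by
        field_simp

/-- the area integral -/
theorem lenA_area {ρ : ℝ} (hρ : 0 < ρ) (hρB : ρ ≤ ‖deriv B t‖) :
    ∫⁻ σ in Uf t, ENNReal.ofReal (‖ld B t σ‖ ^ 2) ≤
      ENNReal.ofReal (4 / Real.sqrt ρ) * ∫⁻ ζ, wz ζ := by
  have hinj : InjOn (fun σ => Complex.exp (B σ - B t)) (Uf t) := by
    intro σ hσ σ' hσ' h
    simp only [Complex.exp_sub] at h
    rw [div_left_inj' (Complex.exp_ne_zero _)] at h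
    exact hBi σ (Uf_sub ht hσ) σ' (Uf_sub ht hσ') h
  calc ∫⁻ σ in Uf t, ENNReal.ofReal (‖ld B t σ‖ ^ 2)
      ≤ ∫⁻ σ in Uf t, ENNReal.ofReal (4 / Real.sqrt ρ) *
      (ENNReal.ofReal (‖deriv (fun σ => Complex.exp (B σ - B t)) σ‖ ^ 2) *
        wz (Complex.exp (B σ - B t))) :=
        setLIntegral_mono' (Uf_open t).measurableSet fun σ hσ => lenA_pt hB hBi ht hρ hρB hσ
    _ = ENNReal.ofReal (4 / Real.sqrt ρ) * ∫⁻ σ in Uf t,
      (ENNReal.ofReal (‖deriv (fun σ => Complex.exp (B σ - B t)) σ‖ ^ 2) *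
        wz (Complex.exp (B σ - B t))) := lintegral_const_mul' _ _ ENNReal.ofReal_ne_top
    _ = ENNReal.ofReal (4 / Real.sqrt ρ) *
        ∫⁻ ζ in (fun σ => Complex.exp (B σ - B t)) '' Uf t, wz ζ := by
        rw [cv (f := fun σ => Complex.exp (B σ - B t)) (Uf_open t).measurableSet (by
          intro σ hσ
          exact ((hB.differentiableAt (Sg_open.mem_nhds (Uf_sub ht hσ))).sub_const (B t)).cexp)
          hinj]
    _ ≤ ENNReal.ofReal (4 / Real.sqrt ρ) * ∫⁻ ζ, wz ζ := by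
        exact mul_le_mul_right (setLIntegral_le_lintegral _ _) _

end

/-- **the length-area estimate** -/
theorem lenA : ∃ C : ℝ, 0 ≤ C ∧ ∀ (B : ℂ → ℂ), DifferentiableOn ℂ B Sg →
    (∀ σ ∈ Sg, ∀ σ' ∈ Sg, Complex.exp (B σ) = Complex.exp (B σ') → σ = σ') →
    ∀ t : ℝ, 0 ≤ t → ∀ ρ : ℝ, 0 < ρ → ρ ≤ ‖deriv B t‖ → ∀ S : ℝ,
    ∫⁻ s in Icc (t + 1 / 2) S, ENNReal.ofReal (‖ld B t s‖ ^ 2) ≤
      ENNReal.ofReal (C / Real.sqrt ρ) := by
  have hv : volume (ball (0:ℂ) (1 / 4)) ≠ 0 := (measure_ball_pos volume _ (by norm_num)).ne'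
  have hv' : volume (ball (0:ℂ) (1 / 4)) ≠ ⊤ := measure_ball_lt_top.ne
  have hpf := plane_fin
  have hq : (∫⁻ ζ, wz ζ) / volume (ball (0:ℂ) (1 / 4)) ≠ ⊤ := (ENNReal.div_lt_top hpf.ne hv).ne
  refine ⟨4 * ((∫⁻ ζ, wz ζ) / volume (ball (0:ℂ) (1 / 4))).toReal, by positivity, ?_⟩
  intro B hB hBi t ht ρ hρ hρB S
  have h1 := (lenA_swap hB hBi ht (S := S)).trans (lenA_area hB hBi ht hρ hρB)
  rw [← ENNReal.le_div_iff_mul_le (Or.inl hv) (Or.inl hv')] at h1
  refine h1.trans (le_of_eq ?_)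
  rw [mul_div_assoc, show 4 * ((∫⁻ ζ, wz ζ) / volume (ball (0:ℂ) (1 / 4))).toReal / Real.sqrt ρ =
    4 / Real.sqrt ρ * ((∫⁻ ζ, wz ζ) / volume (ball (0:ℂ) (1 / 4))).toReal by ring,
    ENNReal.ofReal_mul (by positivity), ENNReal.ofReal_toReal hq]

end Pool.Agent.Helper66.G4
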