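import Mathlib

/-!
# G4 core, part 1: continuous logarithms in the plane and the half plane lemma

A curve in a closed half plane with both ends on the boundary line, which is injective modulo
`2 π i`, has its ends at distance at most `2 π`.
-/

set_option autoImplicit false

namespace Pool.Agent.Helper66.G4

open Set Filter Topology
open scoped Real

/-- continuous logarithm on an open convex set -/
theorem exists_log_convex {E : Type*} [NormedAddCommGroup E] [NormedSpace ℝ E] {U : Set E}
    (hU : Convex ℝ U) (hUo : IsOpen U) (hne : U.Nonempty) {f : E → ℂ} (hf : ContinuousOn f U)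
    (h0 : ∀ x ∈ U, f x ≠ 0) :
    ∃ L : E → ℂ, ContinuousOn L U ∧ ∀ x ∈ U, Complex.exp (L x) = f x := by
  have hc : ContractibleSpace U := hU.contractibleSpace hne
  have hs : IsSimplyConnected U := by
    unfold IsSimplyConnected
    infer_instance
  obtain ⟨L, hL, hE⟩ := Complex.exists_continuousOn_eqOn_exp_comp hs hUo hf (by
    rintro ⟨x, hx, h⟩
    exact h0 x hx h)
  exact ⟨L, hL, fun x hx => hE hx⟩

theorem exists_log2 {f : ℝ × ℝ → ℂ} (hf : Continuous f) (h0 : ∀ x, f x ≠ 0) :
    ∃ L : ℝ × ℝ → ℂ, Continuous L ∧ ∀ x, Complex.exp (L x) = f x := by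
  obtain ⟨L, hL, hE⟩ := exists_log_convex (convex_univ (𝕜 := ℝ) (E := ℝ × ℝ)) isOpen_univ
    univ_nonempty hf.continuousOn (fun x _ => h0 x)
  exact ⟨L, continuousOn_univ.1 hL, fun x => hE x (mem_univ x)⟩

/-- an angle which stays in the left half plane -/
theorem stay_left {θ : ℝ → ℝ} {b c : ℝ} (hθ : ContinuousOn θ (uIcc b c)) {m : ℤ}
    (hcos : ∀ s ∈ uIcc b c, Real.cos (θ s) ≤ 0) (hb : θ b = -(π / 2) + m * (2 * π)) :
    θ b - π ≤ θ c ∧ θ c ≤ θ b := by
  have hpi := Real.pi_pos
  constructor
  · by_contra h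
    push Not at h
    -- a value just below θ b - π
    obtain ⟨x, hx1, hx2, hx3⟩ : ∃ x : ℝ, θ c ≤ x ∧ x < θ b - π ∧ θ b - π - π / 2 < x := by
      refine ⟨max (θ c) (θ b - π - π / 4), le_max_left _ _, ?_, ?_⟩
      · rw [max_lt_iff]
        exact ⟨h, by linarith⟩
      · exact lt_of_lt_of_le (by linarith) (le_max_right _ _)
    have h1 := intermediate_value_uIcc hθ
    have h2 : x ∈ uIcc (θ b) (θ c) := by
      rw [uIcc_of_ge (by linarith)]
      exact ⟨hx1, by linarith⟩
    obtain ⟨s, hs, hsx⟩ := h1 h2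
    have h3 := hcos s hs
    rw [hsx] at h3
    have h4 : Real.cos x = Real.sin (x + π / 2 ) := by rw [Real.sin_add_pi_div_two]
    have h5 : Real.cos x = Real.cos (x - m * (2 * π) + 2 * π) := by
      rw [Real.cos_add_two_pi, Real.cos_sub_int_mul_two_pi]
    have h6 : 0 < Real.cos (x - m * (2 * π) + 2 * π) := by
      apply Real.cos_pos_of_mem_Ioo
      constructor <;> linarith
    linarith
  · by_contra h
    push Not at h
    obtain ⟨x, hx1, hx2, hx3⟩ : ∃ x : ℝ, x ≤ θ c ∧ θ b < x ∧ x < θ b + π := by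
      refine ⟨min (θ c) (θ b + π / 2), min_le_left _ _, ?_, ?_⟩
      · rw [lt_min_iff]
        exact ⟨h, by linarith⟩
      · exact lt_of_le_of_lt (min_le_right _ _) (by linarith)
    have h1 := intermediate_value_uIcc hθ
    have h2 : x ∈ uIcc (θ b) (θ c) := by
      rw [uIcc_of_le (by linarith)]
      exact ⟨by linarith, hx1⟩
    obtain ⟨s, hs, hsx⟩ := h1 h2
    have h3 := hcos s hs
    rw [hsx] at h3
    have h5 : Real.cos x = Real.cos (x - m * (2 * π)) := by
      rw [Real.cos_sub_int_mul_two_pi]
    have h6 : 0 < Real.cos (x - m * (2 * π)) := by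
      apply Real.cos_pos_of_mem_Ioo
      constructor <;> linarith
    linarith

/-- an angle which stays in the right half plane -/
theorem stay_right {θ : ℝ → ℝ} {b c : ℝ} (hθ : ContinuousOn θ (uIcc b c)) {m : ℤ}
    (hcos : ∀ s ∈ uIcc b c, 0 ≤ Real.cos (θ s)) (hb : θ b = -(π / 2) + m * (2 * π)) :
    θ b ≤ θ c ∧ θ c ≤ θ b + π := by
  have h := stay_left (θ := fun s => -θ s - π) (b := b) (c := c) (m := -m - 0) ?_ ?_ ?_
  · constructor <;> linarith [h.1, h.2]
  · exact (hθ.neg).sub continuousOn_const
  · intro s hs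
    rw [Real.cos_sub_pi, Real.cos_neg]
    linarith [hcos s hs]
  · rw [hb]
    push_cast
    ring

/-- the angle of a negative imaginary number -/
theorem ang_neg {L : ℂ} (hre : (Complex.exp L).re = 0) (him : (Complex.exp L).im < 0) :
    ∃ m : ℤ, L.im = -(π / 2) + m * (2 * π) := by
  rw [Complex.exp_re, mul_eq_zero] at hre
  have h1 : Real.cos L.im = 0 := by
    rcases hre with h | h
    · exact absurd h (Real.exp_pos _).ne'
    · exact h
  rw [Complex.exp_im] at him
  have h2 : Real.sin L.im < 0 := by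
    by_contra h
    push Not at h
    have := mul_nonneg (Real.exp_pos L.re).le h
    linarith
  have h3 : Real.cos (L.im + π / 2) = 1 := by
    rw [Real.cos_add_pi_div_two]
    have := Real.sin_sq_add_cos_sq L.im
    rw [h1] at this
    have h4 : (Real.sin L.im - 1) * (Real.sin L.im + 1) = 0 := by nlinarith
    rcases mul_eq_zero.1 h4 with h5 | h5 <;> linarith
  obtain ⟨n, hn⟩ := (Real.cos_eq_one_iff _).1 h3
  exact ⟨n, by linarith⟩

/-- the angle of a positive imaginary number -/
theorem ang_pos {L : ℂ} (hre : (Complex.exp L).re = 0) (him : 0 < (Complex.exp L).im) :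
    ∃ m : ℤ, L.im = π / 2 + m * (2 * π) := by
  obtain ⟨m, hm⟩ := ang_neg (L := L - π * Complex.I) (by
    rw [Complex.exp_sub, Complex.exp_pi_mul_I, div_neg, div_one, Complex.neg_re, hre, neg_zero])
    (by
    rw [Complex.exp_sub, Complex.exp_pi_mul_I, div_neg, div_one, Complex.neg_im]
    linarith)
  refine ⟨m, ?_⟩
  have h1 : (L - π * Complex.I).im = L.im - π := by simp
  rw [h1] at hm
  linarith

theorem half_plane_aux {a : ℝ → ℂ} (ha : Continuous a)
    (hinj : ∀ s s' : ℝ, Complex.exp (a s) = Complex.exp (a s') → s = s') {b c x0 : ℝ}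
    (hre : ∀ s ∈ uIcc b c, (a s).re ≤ x0) (hb : (a b).re = x0) (hc : (a c).re = x0) :
    (a c).im - (a b).im ≤ 2 * π := by
  by_contra hlt
  push Not at hlt
  have hpi := Real.pi_pos
  have hD : Continuous fun x : ℝ × ℝ => a x.1 - a x.2 - 2 * π * Complex.I := by fun_prop
  have hne : ∀ x : ℝ × ℝ, a x.1 - a x.2 - 2 * π * Complex.I ≠ 0 := by
    intro x h
    have h1 : a x.1 = a x.2 + 2 * π * Complex.I := by linear_combination h
    have h2 : x.1 = x.2 := hinj _ _ (by rw [h1, Complex.exp_add, Complex.exp_two_pi_mul_I, mul_one])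
    rw [h2] at h1
    have h3 : (2 : ℂ) * π * Complex.I = 0 := by linear_combination -h1
    have h4 := Complex.two_pi_I_ne_zero
    exact h4 h3
  obtain ⟨L, hL, hE⟩ := exists_log2 hD hne
  have hre' : ∀ x : ℝ × ℝ, (Complex.exp (L x)).re = (a x.1).re - (a x.2).re := by
    intro x
    rw [hE]
    simp
  have him' : ∀ x : ℝ × ℝ, (Complex.exp (L x)).im = (a x.1).im - (a x.2).im - 2 * π := by
    intro x
    rw [hE]
    simp
  have hcos : ∀ x : ℝ × ℝ, (a x.1).re - (a x.2).re = Real.exp (L x).re * Real.cos (L x).im := by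
    intro x
    rw [← hre', Complex.exp_re]
  have hneg : ∀ x : ℝ × ℝ, (a x.1).re - (a x.2).re ≤ 0 → Real.cos (L x).im ≤ 0 := by
    intro x hx
    rw [hcos] at hx
    by_contra h
    push Not at h
    have := mul_pos (Real.exp_pos (L x).re) h
    linarith
  have hposi : ∀ x : ℝ × ℝ, 0 ≤ (a x.1).re - (a x.2).re → 0 ≤ Real.cos (L x).im := by
    intro x hx
    rw [hcos] at hx
    by_contra h
    push Not at h
    have := mul_neg_of_pos_of_neg (Real.exp_pos (L x).re) h
    linarith
  -- the four corners
  obtain ⟨m, hm⟩ := ang_neg (L := L (b, b)) (by rw [hre']; simp) (by rw [him']; simp; linarith)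
  obtain ⟨m', hm'⟩ := ang_neg (L := L (c, c)) (by rw [hre']; simp) (by rw [him']; simp; linarith)
  obtain ⟨k, hk⟩ := ang_pos (L := L (c, b)) (by rw [hre']; simp [hb, hc])
    (by rw [him']; simp only; linarith)
  obtain ⟨k', hk'⟩ := ang_neg (L := L (b, c)) (by rw [hre']; simp [hb, hc])
    (by rw [him']; simp only; linarith)
  -- the four sides
  have hA := stay_left (θ := fun s => (L (s, b)).im) (b := b) (c := c) (m := m)
    (by fun_prop) (fun s hs => hneg _ (by simp only; rw [hb]; linarith [hre s hs])) hm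
  have hE' := stay_right (θ := fun s => (L (b, s)).im) (b := b) (c := c) (m := m)
    (by fun_prop) (fun s hs => hposi _ (by simp only; rw [hb]; linarith [hre s hs])) hm
  have hC := stay_left (θ := fun s => (L (s, c)).im) (b := c) (c := b) (m := m')
    (by fun_prop) (fun s hs => hneg _ (by
      simp only
      rw [hc]
      rw [uIcc_comm] at hs
      linarith [hre s hs])) hm'
  have hB := stay_right (θ := fun s => (L (c, s)).im) (b := c) (c := b) (m := m')
    (by fun_prop) (fun s hs => hposi _ (by
      simp only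
      rw [hc]
      rw [uIcc_comm] at hs
      linarith [hre s hs])) hm'
  rw [hm, hk] at hA
  rw [hm, hk'] at hE'
  rw [hm', hk'] at hC
  rw [hm', hk] at hB
  -- integers
  have e1 : (k : ℝ) = m - 1 := by
    have h1 : ((k - m : ℤ) : ℝ) < 0 := by
      push_cast
      by_contra h
      push Not at h
      nlinarith [hA.2]
    have h2 : (-2 : ℝ) < ((k - m : ℤ) : ℝ) := by
      push_cast
      by_contra h
      push Not at h
      nlinarith [hA.1]
    have h3 : k - m < 0 := by exact_mod_cast h1
    have h4 : -2 < k - m := by exact_mod_cast h2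
    have h5 : k = m - 1 := by omega
    rw [h5]
    push_cast
    ring
  have e2 : (k' : ℝ) = m := by
    have h1 : ((k' - m : ℤ) : ℝ) < 1 := by
      push_cast
      by_contra h
      push Not at h
      nlinarith [hE'.2]
    have h2 : (-1 : ℝ) < ((k' - m : ℤ) : ℝ) := by
      push_cast
      by_contra h
      push Not at h
      nlinarith [hE'.1]
    have h3 : k' - m < 1 := by exact_mod_cast h1
    have h4 : -1 < k' - m := by exact_mod_cast h2
    have h5 : k' = m := by omega
    rw [h5]
  have e3 : (k' : ℝ) = m' := by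
    have h1 : ((k' - m' : ℤ) : ℝ) < 1 := by
      push_cast
      by_contra h
      push Not at h
      nlinarith [hC.2]
    have h2 : (-1 : ℝ) < ((k' - m' : ℤ) : ℝ) := by
      push_cast
      by_contra h
      push Not at h
      nlinarith [hC.1]
    have h3 : k' - m' < 1 := by exact_mod_cast h1
    have h4 : -1 < k' - m' := by exact_mod_cast h2
    have h5 : k' = m' := by omega
    rw [h5]
  rw [e1] at hB
  rw [← e3, e2] at hB
  nlinarith [hB.1]

/-- the half plane lemma -/
theorem half_plane {a : ℝ → ℂ} (ha : Continuous a)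
    (hinj : ∀ s s' : ℝ, Complex.exp (a s) = Complex.exp (a s') → s = s') {b c x0 : ℝ}
    (hre : ∀ s ∈ uIcc b c, (a s).re ≤ x0) (hb : (a b).re = x0) (hc : (a c).re = x0) :
    |(a c).im - (a b).im| ≤ 2 * π := by
  rw [abs_le]
  constructor
  · have := half_plane_aux ha hinj (b := c) (c := b) (x0 := x0) (by rwa [uIcc_comm]) hc hb
    linarith
  · exact half_plane_aux ha hinj hre hb hc

end Pool.Agent.Helper66.G4
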